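import Pool.Agent.H98.ABCR.Stmts

/-! # ABCR, module GEO: sets of reals with geometric gaps -/

set_option autoImplicit false

namespace Pool.Agent.H98.ABCR

open Finset Polynomial

private theorem geo_aux (α : Type) (h : α → ℝ) : ∀ (n : ℕ) (F : Finset α), F.card = n →
    (∀ a ∈ F, 0 < h a) →
    (∀ a ∈ F, ∀ b ∈ F, a ≠ b → h a ≤ h b → 2 * h a ≤ h b) →
    ∀ a0 ∈ F, (∀ b ∈ F, h a0 ≤ h b) → ∃ b ∈ F, 2 ^ (n - 1) * h a0 ≤ h b := by
  classical
  intro n
  induction n with
  | zero =>
    intro F hF _ _ a0 ha0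
    rw [Finset.card_eq_zero] at hF
    rw [hF] at ha0
    simp at ha0
  | succ n ih =>
    intro F hF hpos hgap a0 ha0 hmin
    rcases Nat.eq_zero_or_pos n with hn | hn
    · subst hn
      exact ⟨a0, ha0, by simp⟩
    · have hc : (F.erase a0).card = n := by
        rw [Finset.card_erase_of_mem ha0, hF]
        rfl
      have hne : (F.erase a0).Nonempty := by
        rw [← Finset.card_pos, hc]
        exact hn
      obtain ⟨a1, ha1, hmin1⟩ := Finset.exists_min_image (F.erase a0) h hne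
      obtain ⟨b, hb, hb2⟩ := ih (F.erase a0) hc (fun a ha => hpos a (Finset.mem_of_mem_erase ha))
        (fun a ha b hb => hgap a (Finset.mem_of_mem_erase ha) b (Finset.mem_of_mem_erase hb))
        a1 ha1 hmin1
      refine ⟨b, Finset.mem_of_mem_erase hb, ?_⟩
      have h1 : 2 * h a0 ≤ h a1 :=
        hgap a0 ha0 a1 (Finset.mem_of_mem_erase ha1) (Finset.ne_of_mem_erase ha1).symm
          (hmin a1 (Finset.mem_of_mem_erase ha1))
      obtain ⟨m, rfl⟩ := Nat.exists_eq_succ_of_ne_zero hn.ne'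
      have h2 : (2 : ℝ) ^ m * (2 * h a0) ≤ 2 ^ m * h a1 :=
        mul_le_mul_of_nonneg_left h1 (by positivity)
      calc (2 : ℝ) ^ (m.succ + 1 - 1) * h a0 = 2 ^ m * (2 * h a0) := by
            rw [Nat.add_sub_cancel, pow_succ]
            ring
        _ ≤ 2 ^ m * h a1 := h2
        _ ≤ h b := hb2

theorem geo_thm : S_GEO := by
  classical
  intro α F h J hpos hgap
  rcases F.eq_empty_or_nonempty with hF | hF
  · rw [hF]
    simp
  · obtain ⟨a0, ha0, hmin⟩ := Finset.exists_min_image F h hF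
    obtain ⟨b, hb, hb2⟩ := geo_aux α h F.card F rfl hpos
      (fun a ha b hb hab hle => (hgap a ha b hb hab hle).1) a0 ha0 hmin
    by_contra hcon
    push Not at hcon
    have hp := hpos a0 ha0
    have h1 : (2 : ℝ) ^ (J + 1) ≤ 2 ^ (F.card - 1) :=
      pow_le_pow_right₀ one_le_two (by omega)
    have h2 : (2 : ℝ) ^ (J + 1) * h a0 ≤ h b :=
      (mul_le_mul_of_nonneg_right h1 hp.le).trans hb2
    have hne : a0 ≠ b := by
      intro hab
      rw [← hab] at h2
      have h3 : (1 : ℝ) < 2 ^ (J + 1) := one_lt_pow₀ one_lt_two (by omega)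
      nlinarith
    have h3 := (hgap a0 ha0 b hb hne (hmin b hb)).2
    have h4 : (2 : ℝ) ^ J * h a0 < 2 ^ (J + 1) * h a0 := by
      apply mul_lt_mul_of_pos_right _ hp
      exact pow_lt_pow_right₀ one_lt_two (Nat.lt_succ_self J)
    linarith

end Pool.Agent.H98.ABCR
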